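import Pool.Agent.Q237.LR.Stm4
import Pool.Agent.Q181.LR.POW2

/-!
# Project LR (helper237), job LP2: power law with a logarithm, comparable amplitudes (helper176)
-/

set_option autoImplicit false

namespace Pool.Agent.Q176.LR

open Filter Pool.Agent.Q237.LR4

theorem tend (d : ℕ) (α γ : ℝ) (hαd : α ≤ d) (hγ : 0 ≤ γ) (hor : α < d ∨ 0 < γ) :
    Tendsto (fun L : ℕ => (L : ℝ) ^ ((d : ℝ) - α) * Real.log (1 + (L : ℝ)) ^ γ) atTop atTop := by
  rcases hor with h | h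
  · have h1 : Tendsto (fun L : ℕ => (L : ℝ) ^ ((d : ℝ) - α) * Real.log 2 ^ γ) atTop atTop := by
      apply Tendsto.atTop_mul_const (Real.rpow_pos_of_pos (Real.log_pos (by norm_num)) _)
      exact (tendsto_rpow_atTop (sub_pos.2 h)).comp tendsto_natCast_atTop_atTop
    refine tendsto_atTop_mono' _ ?_ h1
    filter_upwards [eventually_ge_atTop 1] with L hL
    have hL1 : (1 : ℝ) ≤ L := by exact_mod_cast hL
    refine mul_le_mul_of_nonneg_left ?_ (Real.rpow_nonneg (by linarith) _)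
    exact Real.rpow_le_rpow (Real.log_nonneg (by norm_num))
      (Real.log_le_log (by norm_num) (by linarith)) hγ
  · have h1 : Tendsto (fun L : ℕ => Real.log (1 + (L : ℝ)) ^ γ) atTop atTop := by
      have h2 : Tendsto (fun L : ℕ => Real.log (1 + (L : ℝ))) atTop atTop :=
        Real.tendsto_log_atTop.comp
          (tendsto_atTop_add_const_left _ _ tendsto_natCast_atTop_atTop)
      exact (tendsto_rpow_atTop h).comp h2
    refine tendsto_atTop_mono' _ ?_ h1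
    filter_upwards [eventually_ge_atTop 1] with L hL
    have hL1 : (1 : ℝ) ≤ L := by exact_mod_cast hL
    have h3 : (1 : ℝ) ≤ (L : ℝ) ^ ((d : ℝ) - α) := Real.one_le_rpow hL1 (by linarith)
    have h4 : 0 ≤ Real.log (1 + (L : ℝ)) ^ γ :=
      Real.rpow_nonneg (Real.log_nonneg (by linarith)) _
    nlinarith

theorem lp2 : S_LP2 := by
  intro d α γ e hd hα hαd hγ hor he
  refine ⟨(2 : ℝ) ^ α * (2 : ℝ) ^ γ, fun M => ?_⟩
  have he' : 0 < |e| := abs_pos.2 he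
  -- choose `L`
  have htend : Tendsto (fun L : ℕ => |e| * (2 : ℝ) ^ (-α) *
      ((L : ℝ) ^ ((d : ℝ) - α) * Real.log (1 + (L : ℝ)) ^ γ)) atTop atTop :=
    (tend d α γ hαd hγ hor).const_mul_atTop (by positivity)
  obtain ⟨L, hL1, hLM⟩ := ((eventually_ge_atTop 1).and (htend.eventually_ge_atTop M)).exists
  have hL1' : (1 : ℝ) ≤ L := by exact_mod_cast hL1
  have hL0 : (0 : ℝ) < L := by linarith
  have hlog : 0 < Real.log (1 + (L : ℝ)) := Real.log_pos (by linarith)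
  have hlg : 0 < Real.log (1 + (L : ℝ)) ^ γ := Real.rpow_pos_of_pos hlog _
  refine ⟨Pool.Agent.Q181.LR.cube d L,
    |e| * (2 * (L : ℝ)) ^ (-α) * Real.log (1 + (L : ℝ)) ^ γ, by positivity, ?_, ?_, ?_, ?_⟩
  · intro h0
    have h := (Pool.Agent.Q181.LR.norm_cube hd h0).1
    rw [norm_zero] at h
    linarith
  · rw [← Finset.card_pos, Pool.Agent.Q181.LR.card_cube]
    positivity
  · intro z hz
    obtain ⟨h1, h2⟩ := Pool.Agent.Q181.LR.norm_cube hd hz
    have hzn : 0 < ‖z‖ := hL0.trans_le h1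
    have hz0 : z ≠ 0 := norm_pos_iff.1 hzn
    have hl0 : 0 < Real.log (1 + ‖z‖) := Real.log_pos (by linarith)
    have hl1 : Real.log (1 + (L : ℝ)) ≤ Real.log (1 + ‖z‖) :=
      Real.log_le_log (by linarith) (by linarith)
    have hl2 : Real.log (1 + ‖z‖) ≤ 2 * Real.log (1 + (L : ℝ)) := by
      have h3 : 2 * Real.log (1 + (L : ℝ)) = Real.log ((1 + (L : ℝ)) ^ 2) := by
        rw [Real.log_pow]
        norm_num
      rw [h3]
      refine Real.log_le_log (by linarith) ?_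
      nlinarith
    have hg1 : Real.log (1 + (L : ℝ)) ^ γ ≤ Real.log (1 + ‖z‖) ^ γ :=
      Real.rpow_le_rpow hlog.le hl1 hγ
    have hg2 : Real.log (1 + ‖z‖) ^ γ ≤ (2 : ℝ) ^ γ * Real.log (1 + (L : ℝ)) ^ γ := by
      rw [← Real.mul_rpow (by norm_num) hlog.le]
      exact Real.rpow_le_rpow hl0.le hl2 hγ
    have hgz : 0 < Real.log (1 + ‖z‖) ^ γ := Real.rpow_pos_of_pos hl0 _
    have hval : |pl d α γ e z| = |e| * ‖z‖ ^ (-α) * Real.log (1 + ‖z‖) ^ γ := by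
      unfold pl
      rw [if_neg hz0, abs_mul, abs_mul, abs_of_pos (Real.rpow_pos_of_pos hzn _), abs_of_pos hgz]
    rw [hval]
    constructor
    · have h3 : (2 * (L : ℝ)) ^ (-α) ≤ ‖z‖ ^ (-α) :=
        Real.rpow_le_rpow_of_nonpos hzn h2 (by linarith)
      exact mul_le_mul (mul_le_mul_of_nonneg_left h3 he'.le) hg1 hlg.le (by positivity)
    · have h3 : ‖z‖ ^ (-α) ≤ (L : ℝ) ^ (-α) := Real.rpow_le_rpow_of_nonpos hL0 h1 (by linarith)
      have h4 : (2 : ℝ) ^ α * (2 : ℝ) ^ γ *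
          (|e| * (2 * (L : ℝ)) ^ (-α) * Real.log (1 + (L : ℝ)) ^ γ) =
          |e| * (L : ℝ) ^ (-α) * ((2 : ℝ) ^ γ * Real.log (1 + (L : ℝ)) ^ γ) := by
        rw [Real.mul_rpow (by norm_num) hL0.le]
        have h5 : (2 : ℝ) ^ α * (2 : ℝ) ^ (-α) = 1 := by
          rw [← Real.rpow_add (by norm_num)]
          simp
        calc (2 : ℝ) ^ α * (2 : ℝ) ^ γ *
              (|e| * ((2 : ℝ) ^ (-α) * (L : ℝ) ^ (-α)) * Real.log (1 + (L : ℝ)) ^ γ)
            = ((2 : ℝ) ^ α * (2 : ℝ) ^ (-α)) *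
              (|e| * (L : ℝ) ^ (-α) * ((2 : ℝ) ^ γ * Real.log (1 + (L : ℝ)) ^ γ)) := by ring
          _ = _ := by rw [h5, one_mul]
      rw [h4]
      exact mul_le_mul (mul_le_mul_of_nonneg_left h3 he'.le) hg2 hgz.le (by positivity)
  · rw [Pool.Agent.Q181.LR.card_cube]
    refine hLM.trans ?_
    have h5 : (L : ℝ) ^ ((d : ℝ) - α) = (L : ℝ) ^ (-α) * (L : ℝ) ^ d := by
      rw [sub_eq_neg_add, Real.rpow_add hL0, Real.rpow_natCast]
    rw [h5, Real.mul_rpow (by norm_num) hL0.le]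
    push_cast
    have h6 : (L : ℝ) ^ d ≤ ((L : ℝ) + 1) ^ d := pow_le_pow_left₀ hL0.le (by linarith) d
    have h7 : 0 ≤ |e| * ((2 : ℝ) ^ (-α) * (L : ℝ) ^ (-α)) * Real.log (1 + (L : ℝ)) ^ γ := by
      positivity
    calc |e| * (2 : ℝ) ^ (-α) * ((L : ℝ) ^ (-α) * (L : ℝ) ^ d * Real.log (1 + (L : ℝ)) ^ γ)
        = |e| * ((2 : ℝ) ^ (-α) * (L : ℝ) ^ (-α)) * Real.log (1 + (L : ℝ)) ^ γ *
            (L : ℝ) ^ d := by ring
      _ ≤ |e| * ((2 : ℝ) ^ (-α) * (L : ℝ) ^ (-α)) * Real.log (1 + (L : ℝ)) ^ γ *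
            ((L : ℝ) + 1) ^ d := mul_le_mul_of_nonneg_left h6 h7

end Pool.Agent.Q176.LR
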